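import Mathlib
import Pool.Agent.L0h52.BJ.Fld
import Pool.Agent.L0h52.BJ.Facts
import Pool.Agent.L0h52.BJ.Quad
import Pool.Agent.L0h52.BJ.FamLow
import Pool.Agent.Y948.CQ.C2

/-!
# Beilinson's conjecture for products, quadric bundles and families of torsors over multiquadratic
# fields: the twists of two curves at once

`A_n : y² = x³ - 35 n² x - 98 n³` is the quadratic twist by `n` of `X_0(49)`, `B_n : y² = x³ + n³` that of
`X_0(36)`; let `p = 7` for `A` and `p = 3` for `B`.  Let `H` be a finite set of integers that represents a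
subgroup of `ℚˣ / ℚˣ²` containing none of `-1`, `p`, `-p`, and let `K = ℚ(√-p, √M : M ∈ H)`, of degree
`2 #H`.  Let `E : y² = x³ + a x + b` be `A_e` (or `B_e`) and `E_m` its twist by `m`.

If for all `M` in `H` the group `A_{eM}(ℚ)` is finite and `Ш(A_{eM}/ℚ)[2] = 0`, both sides of (iii) are
zero, and (i), (ii), (iii) hold, for all odd `i`, for the following smooth projective varieties:

* `X = E × S` for all `S` with a cellular decomposition over `K` (rational surfaces, quadrics, flag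
  varieties, toric varieties, … that split over `K`).  If `ρ_j` is the representation of the Galois group on
  `CH^j(S_K)`, then `H^{2j+1}(X) = H¹(E) ⊗ ρ_j(-j)` and `V^{j+1} = (E(ℚ̄) ⊗ ρ_j)^Gal ⊗ ℚ`; the `L`-function
  is a product of functions `L(E_m, s - j)`, `m` in the classes of `H` and `-p H`;
* the smooth completions `X` of `c_1 x_1² + ⋯ + c_n x_n² = x³ + a x + b` for all odd `n` and all `c_i ≠ 0` with
  `δ = (-1)^((n - 1) / 2) ∏ c_i` in the classes of `H` and `-p H`.  These are quadric bundles over `ℙ¹` of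
  dimension `n`, with only one odd cohomology group `H^n(X) = H¹(E_δ)(-(n - 1) / 2)`, and
  `V^{(n+1)/2} = E_δ(ℚ) ⊗ ℚ`.  Here the `L`-function is defined by the numbers of points of `X` itself;
* for `i = 1` and `i = 2 n - 1` the varieties of dimension `n` over a field `F ⊆ K` that contain a dense
  open subset which is a torsor under `E` over an open subset of an affine space; for surfaces these
  are all the odd `i`;
* blow-ups of such varieties in centres of the same kinds, for example of `ℙ³` in curves isomorphic to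
  `A_{eM}` and `B_{eM'}`.

These identifications are standard and are not formalized.  What is proved, `BothZero`: the
`L`-functions are entire and not zero at their centres, and the groups on the side of the cycles are
finite: `E(F)` for `F ⊆ K`; all the zero-cycles of degree zero over `F` on the families of torsors are torsion
(see `ConstantJacobianFibrations` for the definitions: the cycles are those on the open subset, over the
algebraic closure and invariant under the Galois group, torsion means that a multiple is in the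
subgroup generated by explicit divisors of functions on curves); the groups `(E(ℚ̄) ⊗ ℤⁿ)^Gal`.

How often: let `H` be such a set for `7`, `H'` such a set for `3`, and let `e` run over the squarefree
integers, in a residue class and with a condition on the sign or without them, such that `A_{eM}` and
`B_{eM'}` have root number one by the known formulas (`PlusA`, `PlusB`; the root numbers are not used) for
all `M ∈ H`, `M' ∈ H'`.  If there is one such `e`, the conditions hold for all these curves for the exact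
proportion `c₂^(#H + #H') / 4`, `c₂ = ∏_{i ≥ 0} (1 - 2^{-(2i+1)}) = 0.4194…`; for the curve `A_e` alone, without
conditions for `B`, for the proportion `c₂^#H / 2`, and for `B_e` alone `c₂^#H' / 2`.  So the `e` with
`BothZero` for both curves have positive lower density among all integers.

The proof.  The joint law is `Pool/Agent/L0h86/XF` (see `Results/MP_696deb_nt/JointLawTwoFields`); the twist
by `-p n` is isogenous to the twist by `n`.  A power of `2` times a point `P` over `K` is a sum of its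
components `∑_σ χ(σ) σ P` for the quadratic characters `χ`, which come from points over `ℚ` of the twists,
and the multiplication by `2` has finite fibres (`L0h52/BJ/Iso`, `Fld`).  The points on the quadric bundles
are counted in `L0h52/BJ/Quad`.
-/

set_option autoImplicit false

open scoped Classical
open Filter Topology

namespace Pool.Agent.Results.MP_29b22a_nt.MultiquadraticTwists

open Pool.Agent.TH841.SH.D (Pt act Gal)
open Pool.Agent.L0h52.BT (TorsorFamily)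

/-! ### zero-cycles on families of torsors -/

section cycles

variable {k : Type} [Field k] {E : WeierstrassCurve k} {m : ℕ} (F : TorsorFamily E m)

/-- The degree of a zero-cycle. -/
def degree (z : F.X →₀ ℤ) : ℤ := z.sum fun _ c => c

/-- The zero-cycle is defined over `k`: it is invariant under the Galois group. -/
def IsRational (z : F.X →₀ ℤ) : Prop := ∀ σ, z.mapDomain (F.gal σ) = z

/-- The divisors of rational functions on the fibre through a point `x`, by Abel's theorem: the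
`∑ c_P [x + P]` with `∑ c_P = 0` and `∑ c_P P = 0`. -/
def IsFibreDivisor (z : F.X →₀ ℤ) : Prop :=
  ∃ (x : F.X) (c : Pt E (AlgebraicClosure k) →₀ ℤ), c.sum (fun _ b => b) = 0 ∧
    c.sum (fun P b => b • P) = 0 ∧ z = c.mapDomain (fun P => F.tr P x)

/-- The divisors `∑_{w ∈ W_t} [w + P] - ∑_{w ∈ W_t'} [w + P]`. -/
def IsBaseDivisor (z : F.X →₀ ℤ) : Prop :=
  ∃ (P : Pt E (AlgebraicClosure k)) (t t' : Fin m → AlgebraicClosure k),
    MvPolynomial.aeval t F.f ≠ 0 ∧ MvPolynomial.aeval t' F.f ≠ 0 ∧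
    z = ∑ w ∈ F.W t, Finsupp.single (F.tr P w) 1 - ∑ w ∈ F.W t', Finsupp.single (F.tr P w) 1

/-- A positive multiple of the cycle is a sum of such divisors. -/
def IsTorsion (z : F.X →₀ ℤ) : Prop :=
  ∃ N : ℕ, 0 < N ∧ N • z ∈ AddSubgroup.closure {y | IsFibreDivisor F y ∨ IsBaseDivisor F y}

end cycles

/-! ### the groups -/

section groups

variable {k : Type} [Field k]

/-- The curve `y² = x³ + a x + b`. -/
def curve (a b : k) : WeierstrassCurve k := { a₁ := 0, a₂ := 0, a₃ := 0, a₄ := a, a₆ := b }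

/-- The subfield of the algebraic closure generated over `k` by the square roots of `-p` and of the
numbers of `H`. -/
noncomputable def multiquadratic (k : Type) [Field k] (p : ℤ) (H : Finset ℤ) :
    IntermediateField k (AlgebraicClosure k) :=
  IntermediateField.adjoin k {x | x ^ 2 = -(p : AlgebraicClosure k) ∨
    ∃ M ∈ H, x ^ 2 = (M : AlgebraicClosure k)}

/-- `E(F)` is finite for all the fields `F ⊆ K`. -/
def PointsFinite (E : WeierstrassCurve k) (K : IntermediateField k (AlgebraicClosure k)) : Prop :=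
  ∀ F : IntermediateField k (AlgebraicClosure k), F ≤ K → Finite (Pt E F)

/-- For all the fields `F ⊆ K` and all the families of torsors under `E` over `F`, of all dimensions, all
the zero-cycles of degree zero over `F` are torsion. -/
def CyclesTorsion (E : WeierstrassCurve k) (K : IntermediateField k (AlgebraicClosure k)) : Prop :=
  ∀ F : IntermediateField k (AlgebraicClosure k), F ≤ K →
    ∀ (m : ℕ) (X : TorsorFamily (E.baseChange F) m) (z : X.X →₀ ℤ), IsRational X z →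
      degree X z = 0 → IsTorsion X z

/-- For all the integral representations `ρ` of the Galois group that are trivial on the automorphisms
fixing `K`, of all degrees `n`, the group of the invariants of `E(k̄) ⊗ ℤⁿ` is finite. -/
def InvariantsFinite (E : WeierstrassCurve k) (K : IntermediateField k (AlgebraicClosure k)) :
    Prop :=
  ∀ (n : ℕ) (ρ : Gal k →* Matrix (Fin n) (Fin n) ℤ), (∀ σ : Gal k, (∀ x ∈ K, σ x = x) → ρ σ = 1) →
    {f : Fin n → Pt E (AlgebraicClosure k) |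
      ∀ σ i, f i = ∑ j, ρ σ i j • act E σ.toAlgHom (f j)}.Finite

end groups

/-- `f` is an entire function which is, for `Re s > j + 3 / 2`, the Euler product over the primes
`p ∤ 2 (4 A³ + 27 B²)` of `L(E, s - j)`, `E : y² = x³ + A x + B`, that is of the `L`-function of
`H¹(E)(-j)`; its centre is `j + 1` -/
def IsL (A B : ℤ) (j : ℕ) (f : ℂ → ℂ) : Prop :=
  Differentiable ℂ f ∧ ∀ s : ℂ, (j : ℝ) + (3 : ℝ) / 2 < s.re →
    HasProd
      (fun p : ℕ =>
        if p.Prime ∧ ¬ ((p : ℤ) ∣ 2 * (4 * A ^ 3 + 27 * B ^ 2)) then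
          ((1 : ℂ)
            - ((p : ℂ) - (Nat.card {q : ZMod p × ZMod p //
                  q.2 ^ 2 = q.1 ^ 3 + (A : ZMod p) * q.1 + (B : ZMod p)} : ℂ))
                * ((p : ℂ) ^ ((j : ℂ) - s))
            + (p : ℂ) ^ (1 + 2 * (j : ℂ) - 2 * s))⁻¹
        else 1)
      (f s)

/-- `f` is an entire function which is, for `Re s > k + 3 / 2`, the Euler product over the primes
`p ∤ 2 (4 a³ + 27 b²) ∏ c_i` of the factors `(1 - (p^n - N_p) p^(-s) + p^(n - 2 s))⁻¹`, `n = 2 k + 1`, where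
`N_p` is the number of the points over `𝔽_p` of the `n`-dimensional variety
`X : c_1 x_1² + ⋯ + c_n x_n² = x³ + a x + b`; it is the `L`-function of `H^n` of the smooth completion of
`X`, the centre is `k + 1` -/
def IsLQ (a b : ℤ) (k : ℕ) (c : Fin (2 * k + 1) → ℤ) (f : ℂ → ℂ) : Prop :=
  Differentiable ℂ f ∧ ∀ s : ℂ, (k : ℝ) + (3 : ℝ) / 2 < s.re →
    HasProd
      (fun p : ℕ =>
        if p.Prime ∧ ¬ ((p : ℤ) ∣ 2 * (4 * a ^ 3 + 27 * b ^ 2) * ∏ i, c i) then
          ((1 : ℂ)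
            - ((p : ℂ) ^ (2 * k + 1) - (Nat.card {q : ZMod p × (Fin (2 * k + 1) → ZMod p) //
                  ∑ i, (c i : ZMod p) * q.2 i ^ 2 =
                    q.1 ^ 3 + (a : ZMod p) * q.1 + (b : ZMod p)} : ℂ))
                * ((p : ℂ) ^ (-s))
            + (p : ℂ) ^ (2 * (k : ℂ) + 1 - 2 * s))⁻¹
        else 1)
      (f s)

/-- `m = M t²` or `m = -p M t²` with `M` in `H`. -/
def InClass (p : ℤ) (H : Finset ℤ) (m : ℤ) : Prop :=
  ∃ M ∈ H, ∃ t : ℤ, t ≠ 0 ∧ (m = M * t ^ 2 ∨ m = -p * M * t ^ 2)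

/-- Both sides are zero for the curve `E : y² = x³ + a x + b` and the field `K = ℚ(√-p, √M : M ∈ H)`:

* for the twists `E_m`, `m` in the classes of `H` and `-p H`, and all `j` the `L`-function of
  `H¹(E_m)(-j)` is entire and not zero at its centre;
* the same is true for the `L`-functions of `H^n(X)`, `X : c_1 x_1² + ⋯ + c_n x_n² = x³ + a x + b`, for all
  odd `n` and all `c_i ≠ 0` such that `(-1)^((n - 1) / 2) ∏ c_i` is in these classes;
* `E(F)` is finite for all `F ⊆ K`;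
* the zero-cycles of degree zero on the families of torsors under `E` over all `F ⊆ K` are torsion;
* the groups `(E(ℚ̄) ⊗ ℤⁿ)^Gal` are finite for all the representations of `Gal(K / ℚ)` on `ℤⁿ`. -/
def BothZero (p : ℤ) (H : Finset ℤ) (a b : ℤ) : Prop :=
  (∀ m : ℤ, InClass p H m → ∀ j : ℕ, (∃ f : ℂ → ℂ, IsL (a * m ^ 2) (b * m ^ 3) j f) ∧
    ∀ f : ℂ → ℂ, IsL (a * m ^ 2) (b * m ^ 3) j f → f (j + 1) ≠ 0) ∧
  (∀ (k : ℕ) (c : Fin (2 * k + 1) → ℤ), (∀ i, c i ≠ 0) → InClass p H ((-1) ^ k * ∏ i, c i) →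
    (∃ f : ℂ → ℂ, IsLQ a b k c f) ∧ ∀ f : ℂ → ℂ, IsLQ a b k c f → f (k + 1) ≠ 0) ∧
  PointsFinite (curve (a : ℚ) (b : ℚ)) (multiquadratic ℚ p H) ∧
  CyclesTorsion (curve (a : ℚ) (b : ℚ)) (multiquadratic ℚ p H) ∧
  InvariantsFinite (curve (a : ℚ) (b : ℚ)) (multiquadratic ℚ p H)

/-- `H` represents a finite subgroup of `ℚˣ / ℚˣ²` that contains none of `-1`, `p`, `-p`. -/
def Represents (p : ℤ) (H : Finset ℤ) : Prop :=
  1 ∈ H ∧ 0 ∉ H ∧ (∀ M ∈ H, ∀ N ∈ H, ∃ L ∈ H, ∃ t : ℤ, t ≠ 0 ∧ M * N = L * t ^ 2) ∧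
  ∀ M ∈ H, ∀ N ∈ H, M ≠ N → ∀ t : ℤ,
    M * N ≠ t ^ 2 ∧ M * N ≠ -t ^ 2 ∧ M * N ≠ p * t ^ 2 ∧ M * N ≠ -p * t ^ 2

/-- The curve `y² = x³ - 35 n² x - 98 n³`, the quadratic twist by `n` of `X_0(49)`. -/
def A (n : ℤ) : WeierstrassCurve ℚ :=
  { a₁ := 0, a₂ := 0, a₃ := 0, a₄ := -35 * (n : ℚ) ^ 2, a₆ := -98 * (n : ℚ) ^ 3 }

/-- The curve `y² = x³ + n³`, the quadratic twist by `n` of `X_0(36)`. -/
def B (n : ℤ) : WeierstrassCurve ℚ := { a₁ := 0, a₂ := 0, a₃ := 0, a₄ := 0, a₆ := (n : ℚ) ^ 3 }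

/-- `E(ℚ)` is finite and `Ш(E/ℚ)[2] = 0`. -/
def TrivialTwo (E : WeierstrassCurve ℚ) : Prop :=
  Finite E.toAffine.Point ∧ ∀ x : Pool.Agent.TH841.NF.D.Sha E, x + x = 0 → x = 0

/-- `n = D t²` or `n = -7 D t²`, `D` positive, squarefree, prime to `7`. -/
def PlusA (n : ℤ) : Prop := ∃ D t : ℤ, 0 < D ∧ Squarefree D ∧ ¬ 7 ∣ D ∧ t ≠ 0 ∧
  (n = D * t ^ 2 ∨ n = -7 * D * t ^ 2)

/-- `n = D t²` or `n = -3 D t²`, `D` squarefree, prime to `3`, `|D| ≡ 1` modulo `4` or `D` even and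
negative. -/
def PlusB (n : ℤ) : Prop := ∃ D t : ℤ, Squarefree D ∧ ¬ 3 ∣ D ∧ (|D| % 4 = 1 ∨ D < 0 ∧ 2 ∣ D) ∧
  t ≠ 0 ∧ (n = D * t ^ 2 ∨ n = -3 * D * t ^ 2)

/-- The squarefree integers `e ≡ r` modulo `q`, with the sign of `e` in `σ`, such that `PlusA (e M)` holds
for all `M` in `H` and `PlusB (e M)` for all `M` in `H'`. -/
def Fam (H H' : Finset ℤ) (q : ℕ) (r : ℤ) (σ : Set ℤ) (e : ℤ) : Prop :=
  Squarefree e ∧ (∀ M ∈ H, PlusA (e * M)) ∧ (∀ M ∈ H', PlusB (e * M)) ∧ e ≡ r [ZMOD (q : ℤ)] ∧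
    e.sign ∈ σ

/-- Both sides are zero for `A_e` and the group `H`, and for `B_e` and the group `H'`; `e ≡ r` modulo `q` and
the sign of `e` is in `σ`. -/
def Both (H H' : Finset ℤ) (q : ℕ) (r : ℤ) (σ : Set ℤ) (e : ℤ) : Prop :=
  BothZero 7 H (-35 * e ^ 2) (-98 * e ^ 3) ∧ BothZero 3 H' 0 (e ^ 3) ∧ e ≡ r [ZMOD (q : ℤ)] ∧
    e.sign ∈ σ

/-- The proportion of the integers `e`, `|e| ≤ X`, with the property `Q` among those with the
property `F`. -/
noncomputable def prop (F Q : ℤ → Prop) (X : ℕ) : ℝ :=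
  (((Finset.Icc (-(X : ℤ)) X).filter fun e => F e ∧ Q e).card : ℝ) /
    (((Finset.Icc (-(X : ℤ)) X).filter fun e => F e).card : ℝ)

/-- the constant `0.4194...` -/
noncomputable def c₂ : ℝ := ∏' i : ℕ, (1 - (1 / 2 : ℝ) ^ (2 * i + 1))

section proof

theorem torsion_iff {k : Type} [Field k] {E : WeierstrassCurve k} {m : ℕ} (F : TorsorFamily E m)
    (z : F.X →₀ ℤ) : IsTorsion F z ↔
      ∃ N : ℕ, 0 < N ∧ N • z ∈ Pool.Agent.L0h52.BT.Rat F.tr F.U F.W := by
  unfold IsTorsion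
  have e : {y | IsFibreDivisor F y ∨ IsBaseDivisor F y} =
      Pool.Agent.L0h52.BT.fibreRel F.tr ∪ Pool.Agent.L0h52.BT.baseRel F.tr F.U F.W := by
    ext y
    rfl
  rw [e]
  rfl

theorem isTorsion_of_finite {k : Type} [Field k] [CharZero k] {E : WeierstrassCurve k} {m : ℕ}
    (F : TorsorFamily E m) (hE : Finite (Pt E k)) {z : F.X →₀ ℤ} (hz : IsRational F z)
    (hd : degree F z = 0) : IsTorsion F z :=
  (torsion_iff F z).2 (F.torsion hE hz hd)

theorem cycles_of_points {k : Type} [Field k] [CharZero k] {E : WeierstrassCurve k}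
    {K : IntermediateField k (AlgebraicClosure k)} (h : PointsFinite E K) : CyclesTorsion E K := by
  intro F hF m X z hz hd
  haveI : CharZero F := charZero_of_injective_algebraMap (algebraMap k F).injective
  refine isTorsion_of_finite X ?_ hz hd
  have h1 := h F hF
  have e : (E.baseChange F).baseChange F = E.baseChange F := WeierstrassCurve.map_id _
  show Finite ((E.baseChange F).baseChange F).toAffine.Point
  rw [e]
  exact h1

theorem rz_isL {a b : ℤ} (h : Pool.Agent.L0h75.IS.RZ2 a b) (j : ℕ) :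
    (∃ f : ℂ → ℂ, IsL a b j f) ∧ ∀ f : ℂ → ℂ, IsL a b j f → f (j + 1) ≠ 0 := by
  obtain ⟨G, h1, h2, h3, -⟩ := h
  have hG : IsL a b j fun s => G (s - j) := by
    refine ⟨h1.comp (differentiable_id.sub_const _), fun s hs => ?_⟩
    have h4 := h2 (s - j) (by
      rw [Complex.sub_re, Complex.natCast_re]
      linarith)
    have e : (fun p : ℕ =>
        if p.Prime ∧ ¬ ((p : ℤ) ∣ 2 * (4 * a ^ 3 + 27 * b ^ 2)) then
          ((1 : ℂ)
            - ((p : ℂ) - (Nat.card {q : ZMod p × ZMod p //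
                  q.2 ^ 2 = q.1 ^ 3 + (a : ZMod p) * q.1 + (b : ZMod p)} : ℂ))
                * ((p : ℂ) ^ ((j : ℂ) - s))
            + (p : ℂ) ^ (1 + 2 * (j : ℂ) - 2 * s))⁻¹
        else 1) = Pool.Agent.L0h75.IS.tgi a b (s - j) := by
      funext p
      unfold Pool.Agent.L0h75.IS.tgi
      have e1 : (j : ℂ) - s = -(s - j) := by ring
      have e2 : 1 + 2 * (j : ℂ) - 2 * s = 1 - 2 * (s - j) := by ring
      have e3 : ((p : ℤ) ∣ 2 * (4 * a ^ 3 + 27 * b ^ 2)) ↔
          ((p : ℤ) ∣ 2 * (-4 * a ^ 3 - 27 * b ^ 2)) := by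
        have : 2 * (-4 * a ^ 3 - 27 * b ^ 2) = -(2 * (4 * a ^ 3 + 27 * b ^ 2)) := by ring
        rw [this, dvd_neg]
      rw [e1, e2]
      exact if_congr (and_congr_right fun _ => not_congr e3) rfl rfl
    rw [e]
    exact h4
  refine ⟨⟨_, hG⟩, fun f hf => ?_⟩
  have h5 : f = fun s => G (s - j) :=
    Pool.Agent.L0h52.BJ.eq_of_half hf.1 hG.1 (c := (j : ℝ) + 3 / 2) fun s hs =>
      (hf.2 s hs).unique (hG.2 s hs)
  rw [h5]
  show G (j + 1 - j) ≠ 0
  rw [add_sub_cancel_left]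
  exact h3

theorem so_of_rz {a b : ℤ} (hD : 4 * a ^ 3 + 27 * b ^ 2 ≠ 0) (h : Pool.Agent.L0h75.IS.RZ2 a b) :
    {q : ℚ × ℚ | q.2 ^ 2 = q.1 ^ 3 + (a : ℚ) * q.1 + (b : ℚ)}.Finite := by
  obtain ⟨G, h1, h2, h3, h4⟩ := h
  exact Pool.Agent.L0h75.IS.so_of_pt hD h4

theorem prime_dvd_iff {p : ℕ} (hp : p.Prime) (a b : ℤ) (k : ℕ) (c : Fin (2 * k + 1) → ℤ) :
    ((p : ℤ) ∣ 2 * (4 * a ^ 3 + 27 * b ^ 2) * ∏ i, c i) ↔
      ((p : ℤ) ∣ 2 * (4 * (a * ((-1) ^ k * ∏ i, c i) ^ 2) ^ 3 +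
        27 * (b * ((-1) ^ k * ∏ i, c i) ^ 3) ^ 2)) := by
  have hp' : Prime (p : ℤ) := Nat.prime_iff_prime_int.1 hp
  have e : 2 * (4 * (a * ((-1) ^ k * ∏ i, c i) ^ 2) ^ 3 +
      27 * (b * ((-1) ^ k * ∏ i, c i) ^ 3) ^ 2) =
      2 * (4 * a ^ 3 + 27 * b ^ 2) * ((-1) ^ k * ∏ i, c i) ^ 6 := by ring
  have e2 : ((p : ℤ) ∣ (-1) ^ k * ∏ i, c i) ↔ (p : ℤ) ∣ ∏ i, c i := by
    rcases neg_one_pow_eq_or ℤ k with h | h
    · rw [h, one_mul]
    · rw [h, neg_one_mul, dvd_neg]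
  rw [e, hp'.dvd_mul, hp'.dvd_mul (b := _ ^ 6), hp'.dvd_pow_iff_dvd (by norm_num), e2]

theorem isLQ_iff (a b : ℤ) (k : ℕ) (c : Fin (2 * k + 1) → ℤ) (f : ℂ → ℂ) :
    IsLQ a b k c f ↔ IsL (a * ((-1) ^ k * ∏ i, c i) ^ 2) (b * ((-1) ^ k * ∏ i, c i) ^ 3) k f := by
  unfold IsLQ IsL
  refine and_congr_right fun _ => forall_congr' fun s => forall_congr' fun _ => ?_
  refine iff_of_eq (congrArg (fun g : ℕ → ℂ => HasProd g (f s)) (funext fun p => ?_))
  by_cases hp : p.Prime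
  · have hiff := prime_dvd_iff hp a b k c
    by_cases hd : ((p : ℤ) ∣ 2 * (4 * a ^ 3 + 27 * b ^ 2) * ∏ i, c i)
    · rw [if_neg (fun h => h.2 hd), if_neg (fun h => h.2 (hiff.1 hd))]
    · rw [if_pos ⟨hp, hd⟩, if_pos ⟨hp, fun h => hd (hiff.2 h)⟩]
      have hfact : Fact p.Prime := ⟨hp⟩
      have hp2 : p ≠ 2 := by
        rintro rfl
        exact hd (Dvd.dvd.mul_right (Dvd.dvd.mul_right (by norm_num) _) _)
      have hc : ∀ i, ¬ (p : ℤ) ∣ c i := fun i h =>
        hd (Dvd.dvd.mul_left (h.trans (Finset.dvd_prod_of_mem c (Finset.mem_univ i))) _)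
      have key := Pool.Agent.L0h52.BJ.Quad.card_eq hp2 a b k c hc rfl
      have hcast : ∀ N₁ N₂ : ℕ, (p : ℤ) ^ (2 * k + 1) - (N₁ : ℤ) = (p : ℤ) ^ k * ((p : ℤ) - (N₂ : ℤ)) →
          (p : ℂ) ^ (2 * k + 1) - (N₁ : ℂ) = (p : ℂ) ^ k * ((p : ℂ) - (N₂ : ℂ)) := fun N₁ N₂ h => by
        exact_mod_cast h
      have key' := hcast _ _ key
      rw [key']
      have hp0 : (p : ℂ) ≠ 0 := by exact_mod_cast hp.ne_zero
      have e1 : (p : ℂ) ^ ((k : ℂ) - s) = (p : ℂ) ^ k * (p : ℂ) ^ (-s) := by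
        rw [sub_eq_add_neg, Complex.cpow_add _ _ hp0, Complex.cpow_natCast]
      have e2 : 1 + 2 * (k : ℂ) - 2 * s = 2 * (k : ℂ) + 1 - 2 * s := by ring
      have e3 : ∀ N : ℂ, (p : ℂ) ^ k * ((p : ℂ) - N) * (p : ℂ) ^ (-s) =
          ((p : ℂ) - N) * ((p : ℂ) ^ k * (p : ℂ) ^ (-s)) := fun N => by ring
      rw [e1, e2, e3]
  · rw [if_neg (fun h => hp h.1), if_neg (fun h => hp h.1)]

theorem bothZero {p : ℤ} {H : Finset ℤ} {a b : ℤ} (hp : p ≠ 0) (hH : Represents p H)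
    (hD : 4 * a ^ 3 + 27 * b ^ 2 ≠ 0)
    (h : ∀ M ∈ H, ∀ m : ℤ, (m = M ∨ m = -p * M) →
      Pool.Agent.L0h75.IS.RZ2 (a * m ^ 2) (b * m ^ 3)) : BothZero p H a b := by
  have hM : Pool.Agent.L0h52.BJ.Mul H := ⟨hH.1, hH.2.1, hH.2.2.1⟩
  have h0 : ∀ M ∈ H, ∀ m : ℤ, (m = M ∨ m = -p * M) → m ≠ 0 := by
    intro M hM m hm hm0
    have h1 : M ≠ 0 := fun h2 => hH.2.1 (h2 ▸ hM)
    rcases hm with rfl | rfl
    · exact h1 hm0
    · exact mul_ne_zero (neg_ne_zero.2 hp) h1 hm0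
  have hd : ∀ M ∈ H, ∀ m : ℤ, (m = M ∨ m = -p * M) →
      4 * (a * m ^ 2) ^ 3 + 27 * (b * m ^ 3) ^ 2 ≠ 0 := by
    intro M hM m hm
    have e : 4 * (a * m ^ 2) ^ 3 + 27 * (b * m ^ 3) ^ 2 =
      (4 * a ^ 3 + 27 * b ^ 2) * m ^ 6 := by ring
    rw [e]
    exact mul_ne_zero hD (pow_ne_zero 6 (h0 M hM m hm))
  have hcl : ∀ m : ℤ, InClass p H m → Pool.Agent.L0h75.IS.RZ2 (a * m ^ 2) (b * m ^ 3) := by
    rintro m ⟨M, hM, t, ht, hm⟩
    have h1 : ∃ u : ℤ, (u = M ∨ u = -p * M) ∧ m = u * t ^ 2 := by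
      rcases hm with h2 | h2
      · exact ⟨M, Or.inl rfl, h2⟩
      · exact ⟨-p * M, Or.inr rfl, h2⟩
    obtain ⟨u, hu, hmu⟩ := h1
    have h3 := Pool.Agent.L0h75.IS.rz_scale (e := t) (hd M hM u hu) ht (h M hM u hu)
    have e1 : a * u ^ 2 * t ^ 4 = a * m ^ 2 := by rw [hmu]; ring
    have e2 : b * u ^ 3 * t ^ 6 = b * m ^ 3 := by rw [hmu]; ring
    rw [e1, e2] at h3
    exact h3
  have key := Pool.Agent.L0h52.BJ.main (k := ℚ) (a := (a : ℚ)) (b := (b : ℚ)) hp hM
    (fun M hM m hm => by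
      have h1 := so_of_rz (hd M hM m hm) (h M hM m hm)
      push_cast at h1
      exact h1)
  have hP : PointsFinite (curve (a : ℚ) (b : ℚ)) (multiquadratic ℚ p H) := key.1
  refine ⟨fun m hm j => rz_isL (hcl m hm) j, fun k c hc hcm => ?_, hP, cycles_of_points hP, key.2⟩
  have h2 := rz_isL (hcl _ hcm) k
  exact ⟨by
    obtain ⟨f, hf⟩ := h2.1
    exact ⟨f, (isLQ_iff a b k c f).2 hf⟩, fun f hf => h2.2 f ((isLQ_iff a b k c f).1 hf)⟩

/-- an enumeration -/
noncomputable def enum (H : Finset ℤ) : Fin H.card → ℤ := fun i => (H.equivFin.symm i).1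

theorem forall_enum {H : Finset ℤ} {P : ℤ → Prop} : (∀ i, P (enum H i)) ↔ ∀ M ∈ H, P M := by
  constructor
  · intro h M hM
    have h1 := h (H.equivFin ⟨M, hM⟩)
    unfold enum at h1
    rwa [Equiv.symm_apply_apply] at h1
  · intro h i
    exact h _ (H.equivFin.symm i).2

theorem diff_enum {p : ℤ} {H : Finset ℤ} (h : H = ∅ ∨ Represents p H) :
    Pool.Agent.L0h86.XF.Diff p (enum H) := by
  intro i j hij t
  rcases h with rfl | h
  · exact absurd i.2 (by simp)
  · refine h.2.2.2 _ (H.equivFin.symm i).2 _ (H.equivFin.symm j).2 ?_ t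
    intro h1
    exact hij (H.equivFin.symm.injective (Subtype.ext h1))

/-- the limit for one curve -/
noncomputable def lim (k : ℕ) : ℝ := if k = 0 then 1 else c₂ ^ k / 2

theorem law_lim (k : ℕ) : Pool.Agent.L0h86.XF.L1 (fun _ : Fin k => true) = lim k := by
  unfold Pool.Agent.L0h86.XF.L1 lim
  rcases Nat.eq_zero_or_pos k with rfl | hk
  · simp
    norm_num
  · have h1 : ¬ ∀ i : Fin k, (fun _ : Fin k => true) i = false := by
      intro h
      simpa using h ⟨0, hk⟩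
    rw [if_neg h1, if_neg hk.ne']
    simp
    rfl

theorem prop_congr' {F F' Q Q' : ℤ → Prop} (hF : ∀ e, F e ↔ F' e) (hQ : ∀ e, Q e ↔ Q' e) (X : ℕ) :
    prop F Q X = prop F' Q' X := by
  unfold prop
  rw [Finset.filter_congr fun e _ => and_congr (hF e) (hQ e), Finset.filter_congr fun e _ => hF e]

theorem law {H H' : Finset ℤ} (hH : H = ∅ ∨ Represents 7 H) (hH' : H' = ∅ ∨ Represents 3 H')
    {q : ℕ} (hq : 0 < q) {r : ℤ} {σ : Set ℤ} (hne : ∃ e, Fam H H' q r σ e) :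
    Tendsto (prop (Fam H H' q r σ) fun e =>
      (∀ M ∈ H, TrivialTwo (A (e * M))) ∧ ∀ M ∈ H', TrivialTwo (B (e * M))) atTop
      (𝓝 (lim H.card * lim H'.card)) := by
  have hF : ∀ e, Pool.Agent.L0h86.XF.Fam (enum H) (enum H') q r σ e ↔ Fam H H' q r σ e := by
    intro e
    unfold Pool.Agent.L0h86.XF.Fam Fam
    rw [forall_enum (P := fun M => Pool.Agent.L0h86.XF.PlusA (e * M)),
      forall_enum (P := fun M => Pool.Agent.L0h86.XF.PlusB (e * M))]
    exact Iff.rfl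
  have h1 := Pool.Agent.L0h86.XF.law_fin (diff_enum hH) (diff_enum hH') hq (r := r) (σ := σ)
    (by obtain ⟨e, he⟩ := hne; exact ⟨e, (hF e).2 he⟩) (fun _ => true) (fun _ => true)
  rw [law_lim, law_lim] at h1
  refine h1.congr fun X => ?_
  refine prop_congr' hF (fun e => ?_) X
  simp only [iff_true]
  rw [← forall_enum (P := fun M => TrivialTwo (A (e * M))),
    ← forall_enum (P := fun M => TrivialTwo (B (e * M)))]
  exact Iff.rfl

theorem low_of_lim {F Q R : ℤ → Prop} {L : ℝ} (hL : 0 < L) (h : Tendsto (prop F Q) atTop (𝓝 L))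
    (hF : ∃ c : ℝ, 0 < c ∧ ∃ X₀ : ℕ, ∀ X : ℕ, X₀ ≤ X →
      c * X ≤ (((Finset.Icc (-(X : ℤ)) X).filter fun e => F e).card : ℝ))
    (hR : ∀ e, F e → Q e → R e) :
    ∃ c : ℝ, 0 < c ∧ ∃ X₀ : ℕ, ∀ X : ℕ, X₀ ≤ X →
      c * X ≤ (((Finset.Icc (-(X : ℤ)) X).filter fun e => R e).card : ℝ) := by
  obtain ⟨c, hc, X₀, hX₀⟩ := hF
  have h1 : ∀ᶠ X in atTop, L / 2 < prop F Q X := h.eventually_const_lt (by linarith)
  obtain ⟨X₁, hX₁⟩ := eventually_atTop.1 h1
  refine ⟨L / 2 * c, by positivity, max X₀ X₁, fun X hX => ?_⟩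
  have h2 := hX₀ X ((le_max_left _ _).trans hX)
  have h3 := hX₁ X ((le_max_right _ _).trans hX)
  have h4 : (((Finset.Icc (-(X : ℤ)) X).filter fun e => F e ∧ Q e).card : ℝ) ≤
      (((Finset.Icc (-(X : ℤ)) X).filter fun e => R e).card : ℝ) := by
    have : ((Finset.Icc (-(X : ℤ)) X).filter fun e => F e ∧ Q e).card ≤
        ((Finset.Icc (-(X : ℤ)) X).filter fun e => R e).card := by
      refine Finset.card_le_card fun e he => ?_
      rw [Finset.mem_filter] at he ⊢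
      exact ⟨he.1, hR e he.2.1 he.2.2⟩
    exact_mod_cast this
  refine le_trans ?_ h4
  set a : ℝ := (((Finset.Icc (-(X : ℤ)) X).filter fun e => F e ∧ Q e).card : ℝ) with ha
  set b : ℝ := (((Finset.Icc (-(X : ℤ)) X).filter fun e => F e).card : ℝ) with hb
  have h5 : L / 2 < a / b := h3
  have hb0 : 0 < b := by
    have hb1 : 0 ≤ b := Nat.cast_nonneg _
    rcases hb1.eq_or_lt with h6 | h6
    · rw [← h6, div_zero] at h5
      linarith
    · exact h6
  rw [lt_div_iff₀ hb0] at h5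
  have h6 : L / 2 * (c * X) ≤ L / 2 * b := mul_le_mul_of_nonneg_left h2 (by positivity)
  calc L / 2 * c * X = L / 2 * (c * X) := by ring
    _ ≤ L / 2 * b := h6
    _ ≤ a := h5.le

theorem bothZero_A {H : Finset ℤ} (hH : Represents 7 H) {e : ℤ}
    (he : ∀ M ∈ H, PlusA (e * M) ∧ TrivialTwo (A (e * M))) :
    BothZero 7 H (-35 * e ^ 2) (-98 * e ^ 3) := by
  have he0 : e ≠ 0 := by
    have h1 := Pool.Agent.L0h52.BJ.plusA_ne (he 1 hH.1).1
    rwa [mul_one] at h1
  refine bothZero (by norm_num) hH ?_ fun M hM m hm => ?_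
  · have e1 : (4 * (-35 * e ^ 2) ^ 3 + 27 * (-98 * e ^ 3) ^ 2 : ℤ) = 87808 * e ^ 6 := by ring
    rw [e1]
    exact mul_ne_zero (by norm_num) (pow_ne_zero _ he0)
  · have h1 := Pool.Agent.L0h52.BJ.factA (n := e * M) (m := e * m) (he M hM).1 (he M hM).2 (by
      rcases hm with rfl | rfl
      · exact Or.inl rfl
      · exact Or.inr (by ring))
    have e1 : -35 * (e * m) ^ 2 = -35 * e ^ 2 * m ^ 2 := by ring
    have e2 : -98 * (e * m) ^ 3 = -98 * e ^ 3 * m ^ 3 := by ring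
    rw [e1, e2] at h1
    exact h1

theorem bothZero_B {H : Finset ℤ} (hH : Represents 3 H) {e : ℤ}
    (he : ∀ M ∈ H, PlusB (e * M) ∧ TrivialTwo (B (e * M))) : BothZero 3 H 0 (e ^ 3) := by
  have he0 : e ≠ 0 := by
    have h1 := Pool.Agent.L0h52.BJ.plusB_ne (he 1 hH.1).1
    rwa [mul_one] at h1
  refine bothZero (by norm_num) hH ?_ fun M hM m hm => ?_
  · have e1 : (4 * 0 ^ 3 + 27 * (e ^ 3) ^ 2 : ℤ) = 27 * e ^ 6 := by ring
    rw [e1]
    exact mul_ne_zero (by norm_num) (pow_ne_zero _ he0)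
  · have h1 := Pool.Agent.L0h52.BJ.factB (n := e * M) (m := e * m) (he M hM).1 (he M hM).2 (by
      rcases hm with rfl | rfl
      · exact Or.inl rfl
      · exact Or.inr (by ring))
    have e1 : (0 : ℤ) = 0 * m ^ 2 := by ring
    have e2 : (e * m) ^ 3 = e ^ 3 * m ^ 3 := by ring
    rw [e2] at h1
    rw [← e1]
    exact h1

end proof

/-- **Main theorem.**  (1), (2) The criteria for the twists of the two curves.  (3) The exact proportions,
for both curves together, with two groups `H` and `H'`, and for each of them.  (4) If there is one such `e`,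
the `e` for which both sides are zero for both curves have positive lower density among all integers. -/
theorem result :
    (∀ H : Finset ℤ, Represents 7 H → ∀ e : ℤ,
      (∀ M ∈ H, PlusA (e * M) ∧ TrivialTwo (A (e * M))) →
      BothZero 7 H (-35 * e ^ 2) (-98 * e ^ 3)) ∧
    (∀ H : Finset ℤ, Represents 3 H → ∀ e : ℤ,
      (∀ M ∈ H, PlusB (e * M) ∧ TrivialTwo (B (e * M))) → BothZero 3 H 0 (e ^ 3)) ∧
    (∀ H H' : Finset ℤ, Represents 7 H → Represents 3 H' →
      ∀ (q : ℕ) (r : ℤ) (σ : Set ℤ), 0 < q →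
      ((∃ e, Fam H H' q r σ e) → Tendsto (prop (Fam H H' q r σ) fun e =>
        (∀ M ∈ H, TrivialTwo (A (e * M))) ∧ ∀ M ∈ H', TrivialTwo (B (e * M))) atTop
        (𝓝 (c₂ ^ (H.card + H'.card) / 4))) ∧
      ((∃ e, Fam H ∅ q r σ e) → Tendsto (prop (Fam H ∅ q r σ) fun e =>
        ∀ M ∈ H, TrivialTwo (A (e * M))) atTop (𝓝 (c₂ ^ H.card / 2))) ∧
      ((∃ e, Fam ∅ H' q r σ e) → Tendsto (prop (Fam ∅ H' q r σ) fun e =>
        ∀ M ∈ H', TrivialTwo (B (e * M))) atTop (𝓝 (c₂ ^ H'.card / 2)))) ∧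
    (∀ H H' : Finset ℤ, Represents 7 H → Represents 3 H' →
      ∀ (q : ℕ) (r : ℤ) (σ : Set ℤ), 0 < q → (∃ e, Fam H H' q r σ e) →
      ∃ c : ℝ, 0 < c ∧ ∃ X₀ : ℕ, ∀ X : ℕ, X₀ ≤ X →
        c * X ≤ (((Finset.Icc (-(X : ℤ)) X).filter fun e => Both H H' q r σ e).card : ℝ)) ∧
    (0.4194 < c₂ ∧ c₂ < 0.4195) := by
  have hc2 := Pool.Agent.Y948.CQ.t_C2
  have hc2' : 0 < c₂ := by
    have h : (0.4194 : ℝ) < c₂ := hc2.2.2.2.1
    linarith
  have hboth : ∀ H H' : Finset ℤ, Represents 7 H → Represents 3 H' →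
      ∀ (q : ℕ) (r : ℤ) (σ : Set ℤ), 0 < q → (∃ e, Fam H H' q r σ e) →
      Tendsto (prop (Fam H H' q r σ) fun e =>
        (∀ M ∈ H, TrivialTwo (A (e * M))) ∧ ∀ M ∈ H', TrivialTwo (B (e * M))) atTop
        (𝓝 (c₂ ^ (H.card + H'.card) / 4)) := by
    intro H H' hH hH' q r σ hq hne
    have hc : H.card ≠ 0 := Finset.card_ne_zero.2 ⟨1, hH.1⟩
    have hc' : H'.card ≠ 0 := Finset.card_ne_zero.2 ⟨1, hH'.1⟩
    have h1 := law (Or.inr hH) (Or.inr hH') hq hne
    unfold lim at h1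
    rw [if_neg hc, if_neg hc'] at h1
    have e1 : c₂ ^ (H.card + H'.card) / 4 = c₂ ^ H.card / 2 * (c₂ ^ H'.card / 2) := by ring
    rw [e1]
    exact h1
  refine ⟨fun H hH e he => bothZero_A hH he, fun H hH e he => bothZero_B hH he, ?_, ?_,
    hc2.2.2.2.1, hc2.2.2.2.2⟩
  · intro H H' hH hH' q r σ hq
    have hc : H.card ≠ 0 := Finset.card_ne_zero.2 ⟨1, hH.1⟩
    have hc' : H'.card ≠ 0 := Finset.card_ne_zero.2 ⟨1, hH'.1⟩
    refine ⟨hboth H H' hH hH' q r σ hq, fun hne => ?_, fun hne => ?_⟩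
    · have h1 := law (Or.inr hH) (Or.inl rfl) hq hne
      unfold lim at h1
      rw [if_neg hc, if_pos Finset.card_empty, mul_one] at h1
      refine h1.congr fun X => prop_congr' (fun _ => Iff.rfl) (fun e => ?_) X
      simp
    · have h1 := law (Or.inl rfl) (Or.inr hH') hq hne
      unfold lim at h1
      rw [if_neg hc', if_pos Finset.card_empty, one_mul] at h1
      refine h1.congr fun X => prop_congr' (fun _ => Iff.rfl) (fun e => ?_) X
      simp
  · intro H H' hH hH' q r σ hq hne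
    obtain ⟨e₀, h0, hA, hB, hr, hs⟩ := hne
    refine low_of_lim (by positivity) (hboth H H' hH hH' q r σ hq ⟨e₀, h0, hA, hB, hr, hs⟩)
      (Pool.Agent.L0h52.BJ.fam_low hq h0 hA hB hr hs (F := Fam H H' q r σ) fun e he => he) ?_
    rintro e ⟨h1, h2, h3, h4, h5⟩ ⟨h6, h7⟩
    exact ⟨bothZero_A hH fun M hM => ⟨h2 M hM, h6 M hM⟩,
      bothZero_B hH' fun M hM => ⟨h3 M hM, h7 M hM⟩, h4, h5⟩

end Pool.Agent.Results.MP_29b22a_nt.MultiquadraticTwists
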